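import Pool.Agent.H29.LA.Targets

/-!
# EVA: the values of the morphism at the points of the ring of the roots
-/

set_option autoImplicit false

open AlgebraicGeometry CategoryTheory
open scoped MonObj TensorProduct WithZero
open Pool.H27.LG2
open Pool.Agent.H29.LA

noncomputable section

namespace Pool.Agent.H58.LA

section
variable {Ω : Type} [Field Ω] {f : Polynomial (Polynomial Ω)} {h : Polynomial Ω} {R : Type}
  [CommRing R] [Algebra (Polynomial Ω) R] [Algebra Ω R] [IsScalarTower Ω (Polynomial Ω) R]

/-- the homomorphism of the coordinate ring of the curve given by a root -/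
def kap0 (y : R) (hy : f.eval₂ (algebraMap (Polynomial Ω) R) y = 0) :
    AdjoinRoot f →ₐ[Ω] Localization.Away (algebraMap (Polynomial Ω) R h) :=
  (IsScalarTower.toAlgHom Ω R (Localization.Away (algebraMap (Polynomial Ω) R h))).comp
    (AdjoinRoot.liftAlgHom f (IsScalarTower.toAlgHom Ω (Polynomial Ω) R) y hy)

theorem kap0_mk (y : R) (hy : f.eval₂ (algebraMap (Polynomial Ω) R) y = 0)
    (p : Polynomial (Polynomial Ω)) :
    kap0 (h := h) y hy (AdjoinRoot.mk f p) =
      algebraMap R (Localization.Away (algebraMap (Polynomial Ω) R h))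
        (p.eval₂ (algebraMap (Polynomial Ω) R) y) := rfl

theorem kap0_of (y : R) (hy : f.eval₂ (algebraMap (Polynomial Ω) R) y = 0) (p : Polynomial Ω) :
    kap0 (h := h) y hy (AdjoinRoot.of f p) =
      algebraMap R (Localization.Away (algebraMap (Polynomial Ω) R h))
        (algebraMap (Polynomial Ω) R p) := by
  have e : AdjoinRoot.of f p = AdjoinRoot.mk f (Polynomial.C p) := rfl
  rw [e, kap0_mk, Polynomial.eval₂_C]

/-- its extension to the localization -/
def kap (y : R) (hy : f.eval₂ (algebraMap (Polynomial Ω) R) y = 0) :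
    PlaneRing f h →ₐ[Ω] Localization.Away (algebraMap (Polynomial Ω) R h) :=
  IsLocalization.liftAlgHom (M := Submonoid.powers (AdjoinRoot.of f h)) (f := kap0 y hy) (by
    rintro ⟨_, n, rfl⟩
    change IsUnit (kap0 y hy (AdjoinRoot.of f h ^ n))
    rw [map_pow, kap0_of]
    exact (IsLocalization.Away.algebraMap_isUnit (algebraMap (Polynomial Ω) R h)).pow n)

theorem kap_map (y : R) (hy : f.eval₂ (algebraMap (Polynomial Ω) R) y = 0) (w : AdjoinRoot f) :
    kap (h := h) y hy (algebraMap (AdjoinRoot f) (PlaneRing f h) w) = kap0 y hy w := by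
  rw [kap, IsLocalization.liftAlgHom_apply]
  exact IsLocalization.lift_eq _ _

end

theorem evh_map {K : Type} [Field K] (f : Polynomial (Polynomial K)) (h : Polynomial K) (x z : K)
    (hz : (fib f x).eval z = 0) (hx : h.eval x ≠ 0) (w : AdjoinRoot f) :
    evh f h x z hz hx (algebraMap (AdjoinRoot f) (PlaneRing f h) w) = ev f x z hz w := by
  rw [evh, IsLocalization.liftAlgHom_apply]
  exact IsLocalization.lift_eq _ _

theorem ev_mk {K : Type} [Field K] (f : Polynomial (Polynomial K)) (x z : K)
    (hz : (fib f x).eval z = 0) (p : Polynomial (Polynomial K)) :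
    ev f x z hz (AdjoinRoot.mk f p) = (fib p x).eval z := by
  rw [fib, Polynomial.eval_map]
  rfl

theorem ring_ext {F K S : Type} [Field F] [Field K] [Algebra F K] [CommRing S] [Algebra F S]
    {f : Polynomial (Polynomial K)} {h : Polynomial K} (a b : PlaneRing f h →ₐ[F] S)
    (hab : ∀ p : Polynomial (Polynomial K), a (algebraMap (AdjoinRoot f) (PlaneRing f h)
      (AdjoinRoot.mk f p)) = b (algebraMap (AdjoinRoot f) (PlaneRing f h) (AdjoinRoot.mk f p))) :
    a = b := by
  have h2 : a.toRingHom = b.toRingHom := by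
    apply IsLocalization.ringHom_ext (Submonoid.powers (AdjoinRoot.of f h))
    refine RingHom.ext fun w => ?_
    obtain ⟨p, rfl⟩ := AdjoinRoot.mk_surjective w
    exact hab p
  exact AlgHom.ext fun x => congrArg (fun t : PlaneRing f h →+* S => t x) h2

theorem specMap_comp {F R S T : Type} [Field F] [CommRing R] [CommRing S] [CommRing T]
    [Algebra F R] [Algebra F S] [Algebra F T] (a : R →ₐ[F] S) (b : S →ₐ[F] T) :
    specMap b ≫ specMap a = specMap (b.comp a) := by
  apply Over.OverMorphism.ext
  change Spec.map _ ≫ Spec.map _ = Spec.map _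
  rw [← Spec.map_comp, ← CommRingCat.ofHom_comp]
  rfl

theorem pf_EVA : T_EVA := by
  intro F Ω _ _ _ A _ m f h δ R _ _ _ _ _ _ _ y hf
  have hy : ∀ i, f.eval₂ (algebraMap (Polynomial Ω) R) (y i) = 0 := by
    intro i
    rw [← Polynomial.eval_map, hf, Polynomial.eval_prod]
    refine Finset.prod_eq_zero (Finset.mem_univ i) ?_
    simp
  refine ⟨fun i => specMap ((kap (h := h) (y i) (hy i)).restrictScalars F) ≫ δ, ?_⟩
  intro x φ θ hφ hθ hx i
  have hhom : ((φ : R →+* Ω)).comp (algebraMap (Polynomial Ω) R) = Polynomial.evalRingHom x :=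
    RingHom.ext fun p => by
      change φ (algebraMap (Polynomial Ω) R p) = p.eval x
      exact hφ p
  have key : ∀ p : Polynomial (Polynomial Ω),
      φ (p.eval₂ (algebraMap (Polynomial Ω) R) (y i)) = (fib p x).eval (φ (y i)) := by
    intro p
    have h1 := Polynomial.hom_eval₂ p (algebraMap (Polynomial Ω) R) (φ : R →+* Ω) (y i)
    rw [hhom] at h1
    rw [fib, Polynomial.eval_map]
    exact h1
  have hz : (fib f x).eval (φ (y i)) = 0 := by
    rw [← key f, hy i, map_zero]
  refine ⟨hz, ?_⟩
  have hval : val δ x (φ (y i)) =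
      specMap ((evh f h x (φ (y i)) hz hx).restrictScalars F) ≫ δ := by
    unfold val
    rw [dif_pos ⟨hz, hx⟩]
  rw [hval]
  change specMap θ ≫ (specMap ((kap (h := h) (y i) (hy i)).restrictScalars F) ≫ δ) = _
  rw [← Category.assoc, specMap_comp]
  have hab : θ.comp ((kap (h := h) (y i) (hy i)).restrictScalars F) =
      (evh f h x (φ (y i)) hz hx).restrictScalars F := by
    refine ring_ext _ _ fun p => ?_
    change θ (kap (h := h) (y i) (hy i) (algebraMap (AdjoinRoot f) (PlaneRing f h)
      (AdjoinRoot.mk f p))) = evh f h x (φ (y i)) hz hx (algebraMap (AdjoinRoot f) (PlaneRing f h)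
      (AdjoinRoot.mk f p))
    rw [kap_map, evh_map, kap0_mk, ev_mk, hθ, key]
  rw [hab]

end Pool.Agent.H58.LA
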