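import Pool.Agent.H29.LA.Targets
import Pool.Agent.H25.LS.Abstract

/-!
# FAC: factorisation through a finite group
-/

set_option autoImplicit false

open AlgebraicGeometry CategoryTheory Polynomial IntermediateField
open scoped MonObj TensorProduct WithZero
open Pool.H27.LG2
open Pool.Agent.H29.LA

noncomputable section

namespace Pool.Agent.H58.LA

theorem pf_FAC : T_FAC := by
  intro F Ω _ _ _ _ Γ M₀ M E hM hE m φ hφ
  obtain ⟨E', hEE', hfin, hgal⟩ := Pool.Agent.H25.LS.exists_galois F Ω E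
  refine ⟨E', hfin, hgal, ?_⟩
  have hwd : ∀ g g' : ↥(Γ ⊓ M.fixingSubgroup),
      AlgEquiv.restrictNormalHom E' (g : Ω ≃ₐ[F] Ω) =
        AlgEquiv.restrictNormalHom E' (g' : Ω ≃ₐ[F] Ω) → φ g = φ g' := by
    intro g g' h
    have h1 : ((g⁻¹ * g' : ↥(Γ ⊓ M.fixingSubgroup)) : Ω ≃ₐ[F] Ω) ∈ E'.fixingSubgroup := by
      rw [← IntermediateField.restrictNormalHom_ker, MonoidHom.mem_ker]
      change AlgEquiv.restrictNormalHom E' ((g : Ω ≃ₐ[F] Ω)⁻¹ * (g' : Ω ≃ₐ[F] Ω)) = 1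
      rw [map_mul, map_inv, h, inv_mul_cancel]
    have h2 : ((g⁻¹ * g' : ↥(Γ ⊓ M.fixingSubgroup)) : Ω ≃ₐ[F] Ω) ∈ E.fixingSubgroup :=
      IntermediateField.fixingSubgroup_antitone hEE' h1
    have h3 := hφ _ h2
    rw [map_mul, map_inv, inv_mul_eq_one] at h3
    exact h3
  have hle : Γ ⊓ M.fixingSubgroup ≤ Γ ⊓ M₀.fixingSubgroup :=
    inf_le_inf_left Γ (IntermediateField.fixingSubgroup_antitone hM)
  let G₀ : Subgroup (E' ≃ₐ[F] E') :=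
    (Γ ⊓ M₀.fixingSubgroup).map (AlgEquiv.restrictNormalHom E')
  let H : Subgroup G₀ := ((Γ ⊓ M.fixingSubgroup).map (AlgEquiv.restrictNormalHom E')).subgroupOf G₀
  have hex : ∀ h : H, ∃ g : ↥(Γ ⊓ M.fixingSubgroup),
      AlgEquiv.restrictNormalHom E' (g : Ω ≃ₐ[F] Ω) = ((h : G₀) : E' ≃ₐ[F] E') := by
    intro h
    obtain ⟨g, hg, hgh⟩ := Subgroup.mem_map.1 (Subgroup.mem_subgroupOf.1 h.2)
    exact ⟨⟨g, hg⟩, hgh⟩
  choose s hs using hex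
  let φ' : H →* Equiv.Perm (Fin m) := MonoidHom.mk' (fun h => φ (s h)) (by
    intro a b
    rw [← map_mul]
    refine hwd _ _ ?_
    rw [hs]
    change _ = AlgEquiv.restrictNormalHom E' ((s a : Ω ≃ₐ[F] Ω) * (s b : Ω ≃ₐ[F] Ω))
    rw [map_mul, hs, hs]
    rfl)
  refine ⟨H, φ', ?_, ?_⟩
  · intro g
    have hg1 : AlgEquiv.restrictNormalHom E' (g : Ω ≃ₐ[F] Ω) ∈ G₀ :=
      Subgroup.mem_map.2 ⟨g, hle g.2, rfl⟩
    have hg2 : (⟨AlgEquiv.restrictNormalHom E' (g : Ω ≃ₐ[F] Ω), hg1⟩ : G₀) ∈ H :=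
      Subgroup.mem_subgroupOf.2 (Subgroup.mem_map.2 ⟨g, g.2, rfl⟩)
    exact ⟨⟨_, hg2⟩, hwd _ _ (hs _)⟩
  · intro h
    exact ⟨s h, rfl⟩

end Pool.Agent.H58.LA
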