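import Pool.Agent.H29.LA.Targets

/-!
# IRR: total ramification, the roots are conjugate
-/

set_option autoImplicit false

open AlgebraicGeometry CategoryTheory Polynomial IntermediateField
open scoped MonObj TensorProduct WithZero
open Pool.H27.LG2
open Pool.Agent.H29.LA

noncomputable section

namespace Pool.Agent.H58.LA

theorem pf_IRR : T_IRR := by
  intro K Ω _ _ _ _ Γ₀ _ V π p k h0 h1 hPw hp hm hk hV t t' ht ht'
  set c := V (algebraMap K Ω π) with hc
  set q := minpoly K t with hq
  have hint : IsIntegral K t := Algebra.IsIntegral.isIntegral t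
  have hqm : q.Monic := minpoly.monic hint
  have hqp : q ∣ p := minpoly.dvd K t ht
  have hsp : (q.map (algebraMap K Ω)).Splits := Normal.splits inferInstance t
  have hroots : ∀ s ∈ (q.map (algebraMap K Ω)).roots, V s ^ p.natDegree = c ^ k := by
    intro s hs
    have hs1 : (q.map (algebraMap K Ω)).IsRoot s := (mem_roots'.1 hs).2
    have hs2 : aeval s q = 0 := by
      rw [aeval_def, ← Polynomial.eval_map]
      exact hs1
    obtain ⟨r, hr⟩ := hqp
    refine hV s ?_
    rw [hr, map_mul, hs2, zero_mul]
  have hd0 : 0 < q.natDegree := minpoly.natDegree_pos hint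
  have hcard : (q.map (algebraMap K Ω)).roots.card = q.natDegree := by
    rw [← hsp.natDegree_eq_card_roots, natDegree_map]
  have hcoeff : V (algebraMap K Ω (q.coeff 0)) ^ p.natDegree = c ^ (k * q.natDegree) := by
    have e1 : algebraMap K Ω (q.coeff 0) =
        (-1) ^ (q.map (algebraMap K Ω)).natDegree * (q.map (algebraMap K Ω)).roots.prod := by
      rw [← coeff_map]
      exact hsp.coeff_zero_eq_prod_roots_of_monic (hqm.map _)
    have e2 : V ((-1 : Ω) ^ (q.map (algebraMap K Ω)).natDegree) = 1 := by
      rw [map_pow, Valuation.map_neg, Valuation.map_one, one_pow]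
    rw [e1, map_mul, e2, one_mul, map_multiset_prod, ← Multiset.prod_map_pow]
    have e4 : (Multiset.map (fun x : Ω => (V x) ^ p.natDegree)
        (q.map (algebraMap K Ω)).roots) =
        Multiset.map (fun _ => c ^ k) (q.map (algebraMap K Ω)).roots :=
      Multiset.map_congr rfl fun s hs => hroots s hs
    rw [e4]
    rw [Multiset.map_const', Multiset.prod_replicate, hcard, ← pow_mul]
  have hc0 : c ≠ 0 := h0.ne'
  have hq0 : q.coeff 0 ≠ 0 := by
    intro h
    rw [h, map_zero, map_zero, zero_pow hm.ne'] at hcoeff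
    exact pow_ne_zero _ hc0 hcoeff.symm
  obtain ⟨n, hn⟩ := hPw _ hq0
  have hnm : n * (p.natDegree : ℤ) = ((k * q.natDegree : ℕ) : ℤ) := by
    have e : c ^ (n * (p.natDegree : ℤ)) = c ^ (((k * q.natDegree : ℕ) : ℤ)) := by
      rw [zpow_mul, ← hn, zpow_natCast, zpow_natCast]
      exact hcoeff
    exact zpow_right_injective₀ h0 h1.ne e
  have hdvd : p.natDegree ∣ k * q.natDegree := by
    have : (p.natDegree : ℤ) ∣ ((k * q.natDegree : ℕ) : ℤ) := ⟨n, by rw [← hnm]; ring⟩
    exact_mod_cast this
  have hdvd2 : p.natDegree ∣ q.natDegree := (Nat.Coprime.dvd_mul_left hk.symm).1 hdvd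
  have hle : p.natDegree ≤ q.natDegree := Nat.le_of_dvd hd0 hdvd2
  have hpq : p = q := eq_of_monic_of_dvd_of_natDegree_le hqm hp hqp hle
  have hirr : Irreducible p := by
    rw [hpq]
    exact minpoly.irreducible hint
  have ht'q : p = minpoly K t' := minpoly.eq_of_irreducible_of_monic hirr ht' hp
  have hconj : IsConjRoot K t t' := by
    change minpoly K t = minpoly K t'
    rw [← ht'q, hpq]
  obtain ⟨σ, hσ⟩ := isConjRoot_iff_exists_algEquiv.1 hconj
  exact ⟨σ.symm, by rw [← hσ, AlgEquiv.symm_apply_apply]⟩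

end Pool.Agent.H58.LA
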